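import Pool.Agent.Helper40.HS.Ineq

/-!
# Ordered Hajnal-Szemeredi: the minimal potential and its level sets
-/

set_option autoImplicit false

namespace Pool.Agent.Helper40.HS

open Finset

section

variable {P : Type} [Fintype P] [PartialOrder P]

open Classical in
/-- Successors. -/
noncomputable def up (z : P) : Finset P := univ.filter fun u => z < u

open Classical in
/-- Successors of potential at least `θ`. -/
noncomputable def upt (π : P → ℕ) (z : P) (θ : ℕ) : Finset P := univ.filter fun u => z < u ∧ θ ≤ π u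

theorem mem_up {z u : P} : u ∈ up z ↔ z < u := by simp [up]

theorem mem_upt {π : P → ℕ} {z u : P} {θ : ℕ} : u ∈ upt π z θ ↔ z < u ∧ θ ≤ π u := by simp [upt]

/-- A nonempty set of successors has a maximal element. -/
theorem exists_top {z : P} {W : Finset P} (hW : W ⊆ up z) (hne : W.Nonempty) :
    ∃ u ∈ W, Disjoint W (up u) ∧ up u ⊆ up z := by
  classical
  obtain ⟨u, hu, hmax⟩ := W.exists_maximal hne
  refine ⟨u, hu, ?_, ?_⟩
  · rw [Finset.disjoint_left]
    intro v hv hv'
    have h1 := mem_up.1 hv'
    exact absurd h1 (not_lt_of_ge (hmax hv h1.le))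
  · intro v hv
    exact mem_up.2 ((mem_up.1 (hW hu)).trans (mem_up.1 hv))

/-- The number of successors is a valid potential. -/
theorem valid_card (m : ℕ) (hm : 1 ≤ m) (z : P) (θ : ℕ) (hθ : θ ≤ (up z).card) :
    (m - 1) * (upt (fun x => (up x).card) z θ).card + m * θ ≤ m * (up z).card := by
  classical
  have key : (upt (fun x => (up x).card) z θ).card + θ ≤ (up z).card := by
    rcases (upt (fun x : P => (up x).card) z θ).eq_empty_or_nonempty with h | h
    · rw [h, Finset.card_empty, zero_add]
      exact hθ
    · have hsub : upt (fun x : P => (up x).card) z θ ⊆ up z := fun v hv =>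
        mem_up.2 (mem_upt.1 hv).1
      obtain ⟨u, hu, hdis, hup⟩ := exists_top hsub h
      have h1 : (upt (fun x : P => (up x).card) z θ ∪ up u).card ≤ (up z).card :=
        Finset.card_le_card (Finset.union_subset hsub hup)
      rw [Finset.card_union_of_disjoint hdis] at h1
      have h2 := (mem_upt.1 hu).2
      omega
  calc (m - 1) * (upt (fun x => (up x).card) z θ).card + m * θ
      ≤ m * (upt (fun x => (up x).card) z θ).card + m * θ :=
        Nat.add_le_add_right (Nat.mul_le_mul_right _ (by omega)) _
    _ = m * ((upt (fun x => (up x).card) z θ).card + θ) := by ring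
    _ ≤ m * (up z).card := Nat.mul_le_mul_left _ key

/-- A minimal valid potential: it is tight. -/
theorem exists_min (P : Type) [Fintype P] [PartialOrder P] (m : ℕ) (hm : 1 ≤ m) :
    ∃ π : P → ℕ,
      (∀ z θ, θ ≤ π z → (m - 1) * (upt π z θ).card + m * θ ≤ m * π z) ∧
      ∀ z, 0 < π z → ∃ θ < π z, m * (π z - 1) < (m - 1) * (upt π z θ).card + m * θ := by
  classical
  have hex : ∃ N : ℕ, ∃ π : P → ℕ,
      (∀ z θ, θ ≤ π z → (m - 1) * (upt π z θ).card + m * θ ≤ m * π z) ∧ ∑ z, π z = N :=
    ⟨_, fun x => (up x).card, fun z θ h => valid_card m hm z θ h, rfl⟩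
  obtain ⟨π, hπ, hsum⟩ := Nat.find_spec hex
  refine ⟨π, hπ, fun z hz => ?_⟩
  by_contra hcon
  push Not at hcon
  have hle : ∀ x, Function.update π z (π z - 1) x ≤ π x := by
    intro x
    by_cases hx : x = z
    · subst hx
      rw [Function.update_self]
      omega
    · rw [Function.update_of_ne hx]
  have hmono : ∀ x θ, (upt (Function.update π z (π z - 1)) x θ).card ≤ (upt π x θ).card := by
    intro x θ
    refine Finset.card_le_card fun u hu => ?_
    rw [mem_upt] at hu ⊢
    exact ⟨hu.1, hu.2.trans (hle u)⟩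
  have hvalid : ∀ x θ, θ ≤ Function.update π z (π z - 1) x →
      (m - 1) * (upt (Function.update π z (π z - 1)) x θ).card + m * θ ≤
        m * Function.update π z (π z - 1) x := by
    intro x θ hθ
    have h1 := Nat.mul_le_mul_left (m - 1) (hmono x θ)
    by_cases hx : x = z
    · subst hx
      rw [Function.update_self] at hθ ⊢
      have h2 := hcon θ (by omega)
      omega
    · rw [Function.update_of_ne hx] at hθ ⊢
      have h2 := hπ x θ hθ
      omega
  have hlt : ∑ x, Function.update π z (π z - 1) x < ∑ x, π x := by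
    refine Finset.sum_lt_sum (fun x _ => hle x) ⟨z, mem_univ _, ?_⟩
    rw [Function.update_self]
    omega
  rw [hsum] at hlt
  exact Nat.find_min hex hlt ⟨_, hvalid, rfl⟩

/-- The weight of the successors. -/
noncomputable def HH (k : ℕ) (z : P) : ℝ := ∑ y ∈ up z, 1 / ((k : ℝ) - (up y).card)

/-- Lower bound for the weight of the successors by the potential. -/
theorem HH_ge (m k : ℕ) (hm : 1 ≤ m) (h : ℕ → ℝ) (h0 : h 0 = 0)
    (hmono : ∀ i j : ℕ, i ≤ j → j ≤ k → h i ≤ h j)
    (hstep : ∀ θ a N : ℕ, 1 ≤ a → 1 ≤ N → N + θ ≤ k → m * a + (N + 1) ≤ m * (N + 1) →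
      h (θ + a) ≤ h θ + N / ((k : ℝ) - θ))
    (π : P → ℕ) (hdeg : ∀ x : P, (up x).card ≤ k)
    (hdeg' : ∀ x y : P, x < y → (up y).card < k)
    (htight : ∀ z, 0 < π z → ∃ θ < π z, m * (π z - 1) < (m - 1) * (upt π z θ).card + m * θ)
    (z : P) : π z ≤ (up z).card ∧ h (π z) ≤ HH k z := by
  classical
  have hwt : ∀ x y : P, x < y → 0 < 1 / ((k : ℝ) - (up y).card) := by
    intro x y hxy
    have h1 : ((up y).card : ℝ) < k := by exact_mod_cast hdeg' x y hxy
    exact div_pos one_pos (by linarith)
  induction z using (Finite.to_wellFoundedGT : WellFoundedGT P).wf.induction with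
  | _ z ih =>
    rcases Nat.eq_zero_or_pos (π z) with hz | hz
    · rw [hz, h0]
      refine ⟨Nat.zero_le _, Finset.sum_nonneg fun y hy => (hwt z y (mem_up.1 hy)).le⟩
    · obtain ⟨θ, hθ, ht⟩ := htight z hz
      obtain ⟨a, ha⟩ : ∃ a, π z = θ + a := ⟨π z - θ, by omega⟩
      have ha1 : 1 ≤ a := by omega
      obtain ⟨W, hW⟩ : ∃ W, W = upt π z θ := ⟨_, rfl⟩
      rw [← hW] at ht
      have hsub : W ⊆ up z := fun v hv => by
        rw [hW] at hv
        exact mem_up.2 (mem_upt.1 hv).1
      have ht' : m * a + (W.card + 1) ≤ m * (W.card + 1) := by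
        have e1 : m * (π z - 1) = m * (a - 1) + m * θ := by
          rw [← Nat.mul_add]
          congr 1
          omega
        have e2 : m * a = m * (a - 1) + m := by
          obtain ⟨b, rfl⟩ : ∃ b, a = b + 1 := ⟨a - 1, by omega⟩
          simp [Nat.mul_add]
        have e3 : m * (W.card + 1) = (m - 1) * W.card + W.card + m := by
          obtain ⟨b, rfl⟩ : ∃ b, m = b + 1 := ⟨m - 1, by omega⟩
          simp only [Nat.add_sub_cancel]
          ring
        omega
      have hN : 1 ≤ W.card := by
        by_contra hn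
        have hW0 : W.card = 0 := by omega
        rw [hW0] at ht'
        have : m * 1 ≤ m * a := Nat.mul_le_mul_left m ha1
        omega
      have haN : a ≤ W.card := by
        by_contra hn
        push Not at hn
        have : m * (W.card + 1) ≤ m * a := Nat.mul_le_mul_left m hn
        omega
      obtain ⟨u, hu, hdis, hup⟩ := exists_top hsub (Finset.card_pos.1 hN)
      have hWθ : ∀ w ∈ W, θ ≤ (up w).card := by
        intro w hw
        rw [hW] at hw
        have h1 := mem_upt.1 hw
        exact h1.2.trans (ih w h1.1).1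
      have hcard : W.card + (up u).card ≤ (up z).card := by
        rw [← Finset.card_union_of_disjoint hdis]
        exact Finset.card_le_card (Finset.union_subset hsub hup)
      have hθu := hWθ u hu
      have hzk := hdeg z
      have hu' : z < u ∧ θ ≤ π u := by
        rw [hW] at hu
        exact mem_upt.1 hu
      have ihu := ih u hu'.1
      refine ⟨by omega, ?_⟩
      have hsum : (W.card : ℝ) / ((k : ℝ) - θ) + HH k u ≤ HH k z := by
        have h1 : ∑ y ∈ W ∪ up u, 1 / ((k : ℝ) - (up y).card) ≤ HH k z :=
          Finset.sum_le_sum_of_subset_of_nonneg (Finset.union_subset hsub hup)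
            fun y hy _ => (hwt z y (mem_up.1 hy)).le
        rw [Finset.sum_union hdis] at h1
        have h2 : (W.card : ℝ) / ((k : ℝ) - θ) ≤ ∑ y ∈ W, 1 / ((k : ℝ) - (up y).card) := by
          have h3 : ∑ _y ∈ W, 1 / ((k : ℝ) - θ) = (W.card : ℝ) / ((k : ℝ) - θ) := by
            rw [Finset.sum_const, nsmul_eq_mul]
            ring
          rw [← h3]
          refine Finset.sum_le_sum fun w hw => ?_
          have h4 : ((up w).card : ℝ) < k := by exact_mod_cast hdeg' z w (mem_up.1 (hsub hw))
          have h5 : (θ : ℝ) ≤ (up w).card := by exact_mod_cast hWθ w hw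
          exact one_div_le_one_div_of_le (by linarith) (by linarith)
        exact (add_le_add h2 le_rfl).trans h1
      have h6 : h (π z) ≤ h θ + (W.card : ℝ) / ((k : ℝ) - θ) := by
        rw [ha]
        exact hstep θ a W.card ha1 hN (by omega) ht'
      have h7 : h θ ≤ h (π u) := hmono _ _ hu'.2 (ihu.1.trans (hdeg u))
      linarith [ihu.2]

end

end Pool.Agent.Helper40.HS
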