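import Mathlib

/-!
# Ordered Hajnal-Szemeredi: the elementary inequalities

`K = k + 1`. A block of `N` elements raises the potential from `θ` to `θ + a`, where `m a ≤ (m - 1) (N + 1)`, and
costs `N / (K - 1 - θ)`. For `m ≥ 4` the potential is `θ / (T - θ)` with `T = 2 (m - 1) K / m`; for `m = 3` it is the
maximum of `2 θ / (2 K - θ)` and `3 θ / (4 K - 3 θ)`.
-/

set_option autoImplicit false

namespace Pool.Agent.Helper40.HS

/-- The general step: `c (X + 1) (E + T) ≤ E ^ 2` gives the block inequality for `a ≤ c (N + 1)` if `T ≤ N E`. -/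
theorem step_big {c X E T N a : ℝ} (hc : 0 ≤ c) (hT : 0 ≤ T) (hE : 0 ≤ E) (hN : 0 ≤ N) (hNX : N ≤ X)
    (h1 : c * (X + 1) * (E + T) ≤ E ^ 2) (ha : a ≤ c * (N + 1)) (hb : T ≤ N * E) :
    T * a * X ≤ N * E * (E - a) := by
  have hX : 0 ≤ X := hN.trans hNX
  have h2 : a * (N * E + T * X) ≤ c * (N + 1) * (N * E + T * X) :=
    mul_le_mul_of_nonneg_right ha (by positivity)
  have h3 : N * (c * (X + 1) * (E + T)) ≤ N * E ^ 2 := mul_le_mul_of_nonneg_left h1 hN
  have h4 : 0 ≤ c * ((X - N) * (N * E - T)) :=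
    mul_nonneg hc (mul_nonneg (by linarith) (by linarith))
  nlinarith

/-- From the block inequality to the fractions. -/
theorem frac_step {T θ N X a : ℝ} (ha : 0 ≤ a) (hX : 0 < X) (hE : 0 < T - θ - a)
    (h : T * a * X ≤ N * (T - θ) * (T - θ - a)) :
    (θ + a) / (T - (θ + a)) ≤ θ / (T - θ) + N / X := by
  have hE' : 0 < T - θ := by linarith
  have e : T - (θ + a) = T - θ - a := by ring
  rw [e, div_add_div _ _ hE'.ne' hX.ne', div_le_div_iff₀ hE (by positivity)]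
  nlinarith

/-- The block inequality for `m ≥ 4` machines, `c = (m - 1) / m`. -/
theorem block4 {c K θ N a : ℝ} (hc : 3 / 4 ≤ c) (hc1 : c ≤ 1) (hθ : 0 ≤ θ) (hN : 1 ≤ N)
    (hK : N + θ + 1 ≤ K) (haN : a ≤ N) (ha' : a ≤ c * (N + 1)) :
    2 * c * K * a * (K - 1 - θ) ≤ N * (2 * c * K - θ) * (2 * c * K - θ - a) := by
  have hK0 : 0 ≤ K := by linarith
  have hθK : θ ≤ K := by linarith
  have hE : 0 ≤ 2 * c * K - θ := by nlinarith
  have hT : 0 ≤ 2 * c * K := by nlinarith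
  have h1 : c * ((K - 1 - θ) + 1) * ((2 * c * K - θ) + 2 * c * K) ≤ (2 * c * K - θ) ^ 2 := by
    have h2 : 0 ≤ θ * (c * (4 * c - 3) * K + (1 - c) * θ) := by
      refine mul_nonneg hθ (add_nonneg ?_ ?_)
      · exact mul_nonneg (mul_nonneg (by linarith) (by linarith)) hK0
      · exact mul_nonneg (by linarith) hθ
    nlinarith
  by_cases hb : 2 * c * K ≤ N * (2 * c * K - θ)
  · exact step_big (by linarith) hT hE (by linarith) (by linarith) h1 ha' hb
  · push Not at hb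
    set E := 2 * c * K - θ with hEd
    set X := K - 1 - θ with hXd
    set T := 2 * c * K with hTd
    have hX : 0 ≤ X := by rw [hXd]; linarith
    have h3 : 0 ≤ c * E - (1 - c) * T := by
      have h4 : c * E - (1 - c) * T = c * ((4 * c - 2) * K - θ) := by
        rw [hEd, hTd]; ring
      rw [h4]
      refine mul_nonneg (by linarith) ?_
      nlinarith
    have h5 : 0 ≤ (X + 1) * (c * E - (1 - c) * T) := mul_nonneg (by linarith) h3
    have h6 : N * E + T * X ≤ E ^ 2 := by nlinarith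
    have h7 : a * (N * E + T * X) ≤ N * (N * E + T * X) :=
      mul_le_mul_of_nonneg_right haN (add_nonneg (mul_nonneg (by linarith) hE)
        (mul_nonneg hT hX))
    have h8 : N * (N * E + T * X) ≤ N * E ^ 2 := mul_le_mul_of_nonneg_left h6 (by linarith)
    nlinarith

/-- Three machines, first potential. -/
theorem block3a {K θ X : ℝ} {N a : ℕ} (hθ : 0 ≤ θ) (hN : 1 ≤ N) (hX : X = K - 1 - θ)
    (hK : (N : ℝ) ≤ X) (ha : 3 * a ≤ 2 * (N + 1)) :
    4 * K * a * X ≤ N * (2 * K - θ) * (2 * K - θ - a) := by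
  have hN' : (1 : ℝ) ≤ N := by exact_mod_cast hN
  have hX0 : 0 ≤ X := by linarith
  have hK0 : 0 ≤ K := by linarith
  by_cases h4 : 4 ≤ N
  · have h4' : (4 : ℝ) ≤ N := by exact_mod_cast h4
    refine step_big (c := 2 / 3) (by norm_num) (by linarith) (by linarith) (by linarith) hK
      ?_ ?_ ?_
    · subst hX
      nlinarith [mul_nonneg hθ (by linarith : 0 ≤ 2 * K + θ)]
    · have : (3 : ℝ) * a ≤ 2 * (N + 1) := by exact_mod_cast ha
      linarith
    · nlinarith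
  · have hcase : (N = 1 ∧ a ≤ 1) ∨ (N = 2 ∧ a ≤ 2) ∨ (N = 3 ∧ a ≤ 2) := by omega
    have hKX : K = X + 1 + θ := by linarith
    rcases hcase with ⟨rfl, ha1⟩ | ⟨rfl, ha1⟩ | ⟨rfl, ha1⟩
    · have ha1' : (a : ℝ) ≤ 1 := by exact_mod_cast ha1
      have ha0 : (0 : ℝ) ≤ a := Nat.cast_nonneg a
      have h5 : 4 * K * X ≤ (2 * K - θ) * (2 * K - θ - 1) := by
        rw [hKX]; push_cast at hK; nlinarith
      have h6 : 0 ≤ 2 * K - θ := by linarith
      have h7 : 4 * K * a * X ≤ 4 * K * X := by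
        have : 0 ≤ 4 * K * X := by positivity
        nlinarith
      push_cast
      nlinarith
    · have ha1' : (a : ℝ) ≤ 2 := by exact_mod_cast ha1
      have ha0 : (0 : ℝ) ≤ a := Nat.cast_nonneg a
      have h5 : 4 * K * X ≤ (2 * K - θ) * (2 * K - θ - 2) := by
        rw [hKX]; nlinarith
      have h6 : 0 ≤ 2 * K - θ := by linarith
      have h7 : 4 * K * a * X ≤ 2 * (4 * K * X) := by
        have : 0 ≤ 4 * K * X := by positivity
        nlinarith
      push_cast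
      nlinarith
    · have ha1' : (a : ℝ) ≤ 2 := by exact_mod_cast ha1
      have ha0 : (0 : ℝ) ≤ a := Nat.cast_nonneg a
      have h5 : 4 * K * X ≤ (2 * K - θ) * (2 * K - θ - 2) := by
        rw [hKX]; nlinarith
      have h6 : 0 ≤ 2 * K - θ := by linarith
      have h8 : 0 ≤ 4 * K * X := by positivity
      have h7 : 4 * K * a * X ≤ 2 * (4 * K * X) := by nlinarith
      push_cast
      nlinarith

/-- Three machines, second potential, `3 (K - θ) ≤ K`. -/
theorem block3b {K θ X : ℝ} {N a : ℕ} (hθ : 0 ≤ θ) (hN : 1 ≤ N) (hX : X = K - 1 - θ)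
    (hK : (N : ℝ) ≤ X) (ha : 3 * a ≤ 2 * (N + 1)) (hZ : 3 * (K - θ) ≤ K) :
    4 * K / 3 * a * X ≤ N * (4 * K / 3 - θ) * (4 * K / 3 - θ - a) := by
  have hN' : (1 : ℝ) ≤ N := by exact_mod_cast hN
  have hX0 : 0 ≤ X := by linarith
  have hK0 : 0 ≤ K := by linarith
  by_cases h4 : 4 ≤ N
  · have h4' : (4 : ℝ) ≤ N := by exact_mod_cast h4
    refine step_big (c := 2 / 3) (by norm_num) (by linarith) (by linarith) (by linarith) hK
      ?_ ?_ ?_
    · subst hX
      nlinarith [mul_nonneg hθ (by linarith : 0 ≤ K - 3 * (K - θ))]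
    · have : (3 : ℝ) * a ≤ 2 * (N + 1) := by exact_mod_cast ha
      linarith
    · nlinarith
  · have hcase : (N = 1 ∧ a ≤ 1) ∨ (N = 2 ∧ a ≤ 2) ∨ (N = 3 ∧ a ≤ 2) := by omega
    have hKX : θ = K - 1 - X := by linarith
    have h6 : 0 ≤ 4 * K / 3 - θ := by linarith
    have h8 : 0 ≤ 4 * K / 3 * X := by positivity
    have hW : 0 ≤ K / 3 - (X + 1) := by linarith
    rcases hcase with ⟨rfl, ha1⟩ | ⟨rfl, ha1⟩ | ⟨rfl, ha1⟩
    · have ha1' : (a : ℝ) ≤ 1 := by exact_mod_cast ha1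
      have ha0 : (0 : ℝ) ≤ a := Nat.cast_nonneg a
      have h5 : 4 * K / 3 * X ≤ (4 * K / 3 - θ) * (4 * K / 3 - θ - 1) := by
        rw [hKX]; nlinarith [sq_nonneg (K / 3 - (X + 1))]
      have h7 : 4 * K / 3 * a * X ≤ 4 * K / 3 * X := by nlinarith
      push_cast
      nlinarith
    · have ha1' : (a : ℝ) ≤ 2 := by exact_mod_cast ha1
      have ha0 : (0 : ℝ) ≤ a := Nat.cast_nonneg a
      have h5 : 4 * K / 3 * X ≤ (4 * K / 3 - θ) * (4 * K / 3 - θ - 2) := by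
        rw [hKX]; nlinarith [sq_nonneg (K / 3 - (X + 1))]
      have h7 : 4 * K / 3 * a * X ≤ 2 * (4 * K / 3 * X) := by nlinarith
      push_cast
      nlinarith
    · have ha1' : (a : ℝ) ≤ 2 := by exact_mod_cast ha1
      have ha0 : (0 : ℝ) ≤ a := Nat.cast_nonneg a
      have h5 : 4 * K / 3 * X ≤ (4 * K / 3 - θ) * (4 * K / 3 - θ - 2) := by
        rw [hKX]; nlinarith [sq_nonneg (K / 3 - (X + 1))]
      have h7 : 4 * K / 3 * a * X ≤ 2 * (4 * K / 3 * X) := by nlinarith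
      push_cast
      nlinarith

/-- Three machines, from the first to the second potential, `K ≤ 3 (K - θ)`. -/
theorem block3c {K θ X : ℝ} {N a : ℕ} (hθ : 0 ≤ θ) (hN : 1 ≤ N) (hX : X = K - 1 - θ)
    (hK : (N : ℝ) ≤ X) (ha : 3 * a ≤ 2 * (N + 1)) (ha1 : 1 ≤ a) (hZ : K ≤ 3 * (K - θ)) :
    (θ + a) / (4 * K / 3 - (θ + a)) ≤ 2 * (θ / (2 * K - θ)) + N / X := by
  have hN' : (1 : ℝ) ≤ N := by exact_mod_cast hN
  have hX0 : 0 < X := by linarith
  obtain ⟨Z, hZX⟩ : ∃ Z : ℝ, Z = X + 1 := ⟨_, rfl⟩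
  have hθZ : θ = K - Z := by linarith
  have hXZ : X = Z - 1 := by linarith
  have hq : 0 ≤ 3 * Z - K := by linarith
  have hKZ : 0 ≤ K - Z := by linarith
  have hZ2 : 2 ≤ Z := by linarith
  have e1 : 2 * (θ / (2 * K - θ)) = (2 * (K - Z)) / (K + Z) := by
    rw [hθZ, ← mul_div_assoc]
    congr 1
    ring
  have hd2 : 0 < K + Z := by linarith
  by_cases h1 : a = 1
  · subst h1
    have hd1 : 0 < K + 3 * Z - 3 := by linarith
    have e2 : (θ + (1 : ℕ)) / (4 * K / 3 - (θ + (1 : ℕ))) = 3 * (K - Z + 1) / (K + 3 * Z - 3) := by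
      push_cast
      rw [hθZ, div_eq_div_iff (by linarith) hd1.ne']
      ring
    have h2 : 1 / X ≤ N / X := div_le_div_of_nonneg_right hN' hX0.le
    have h3 : 3 * (K - Z + 1) / (K + 3 * Z - 3) ≤ 2 * (K - Z) / (K + Z) + 1 / X := by
      rw [hXZ, div_add_div _ _ hd2.ne' (by linarith), div_le_div_iff₀ hd1
        (mul_pos hd2 (by linarith))]
      nlinarith [mul_nonneg hq (add_nonneg (mul_nonneg (by linarith : 0 ≤ Z - 2) hKZ)
        (by linarith : 0 ≤ Z))]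
    rw [e1, e2]
    linarith
  · have h2a : 2 ≤ a := by omega
    have h2a' : (2 : ℝ) ≤ a := by exact_mod_cast h2a
    have haN : (3 : ℝ) * a ≤ 2 * (N + 1) := by exact_mod_cast ha
    have hr : 0 ≤ 2 * Z - 3 * a := by linarith
    have hd1 : 0 < K + 3 * Z - 3 * a := by linarith
    have e2 : (θ + a) / (4 * K / 3 - (θ + a)) = 3 * (K - Z + a) / (K + 3 * Z - 3 * a) := by
      rw [hθZ, div_eq_div_iff (by linarith) hd1.ne']
      ring
    have h2 : (3 * a / 2 - 1) / X ≤ N / X := div_le_div_of_nonneg_right (by linarith) hX0.le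
    have h3 : 3 * (K - Z + a) / (K + 3 * Z - 3 * a) ≤
        2 * (K - Z) / (K + Z) + (3 * a / 2 - 1) / X := by
      rw [hXZ, div_add_div _ _ hd2.ne' (by linarith), div_le_div_iff₀ hd1
        (mul_pos hd2 (by linarith))]
      nlinarith [mul_nonneg hr (add_nonneg (mul_nonneg hq (by linarith : 0 ≤ K - Z + 2))
        (mul_nonneg hd2.le (by linarith : (0 : ℝ) ≤ 3 * a - 6)))]
    rw [e1, e2]
    linarith

/-- The potential for `m ≥ 4`. -/
theorem pot4 (m k : ℕ) (hm : 4 ≤ m) : ∃ h : ℕ → ℝ, h 0 = 0 ∧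
    (∀ i j : ℕ, i ≤ j → j ≤ k → h i ≤ h j) ∧
    (∀ θ a N : ℕ, 1 ≤ a → 1 ≤ N → N + θ ≤ k → m * a + (N + 1) ≤ m * (N + 1) →
      h (θ + a) ≤ h θ + N / ((k : ℝ) - θ)) ∧
    ∀ T θ : ℕ, 2 * m * (k + 1) ≤ m * T + 2 * (k + 1) → θ ≤ k → (θ : ℝ) ≤ h θ * (T - θ) := by
  have hm' : (4 : ℝ) ≤ m := by exact_mod_cast hm
  obtain ⟨c, hc⟩ : ∃ c : ℝ, c = (m - 1) / m := ⟨_, rfl⟩
  have hmc : (m : ℝ) * c = m - 1 := by
    rw [hc]; field_simp
  have hc1 : c ≤ 1 := by nlinarith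
  have hc0 : 3 / 4 ≤ c := by nlinarith
  obtain ⟨K, hK⟩ : ∃ K : ℝ, K = k + 1 := ⟨_, rfl⟩
  have hK1 : 1 ≤ K := by
    have : (0 : ℝ) ≤ k := Nat.cast_nonneg k
    linarith
  have hT : K ≤ 2 * c * K := by nlinarith
  refine ⟨fun θ => θ / (2 * c * K - θ), by simp, ?_, ?_, ?_⟩
  · intro i j hij hj
    have h1 : (i : ℝ) ≤ j := by exact_mod_cast hij
    have h2 : (j : ℝ) ≤ k := by exact_mod_cast hj
    exact div_le_div₀ (Nat.cast_nonneg j) h1 (by linarith) (by linarith)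
  · intro θ a N ha hN hNk hb
    have h1 : (1 : ℝ) ≤ N := by exact_mod_cast hN
    have h2 : (N : ℝ) + θ ≤ k := by exact_mod_cast hNk
    have h3 : (0 : ℝ) ≤ θ := Nat.cast_nonneg θ
    have h4 : (m : ℝ) * a + (N + 1) ≤ m * (N + 1) := by exact_mod_cast hb
    have h5 : (a : ℝ) ≤ c * (N + 1) := by
      have h6 : (m : ℝ) * a ≤ m * (c * (N + 1)) := by
        calc (m : ℝ) * a ≤ m * (N + 1) - (N + 1) := by linarith
          _ = (m - 1) * (N + 1) := by ring
          _ = (m * c) * (N + 1) := by rw [hmc]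
          _ = m * (c * (N + 1)) := by ring
      exact le_of_mul_le_mul_left h6 (by linarith)
    have h6 : (a : ℝ) ≤ N := by
      have : a ≤ N := by
        by_contra h
        push Not at h
        nlinarith [Nat.mul_le_mul_left m h]
      exact_mod_cast this
    have hX : (k : ℝ) - θ = K - 1 - θ := by rw [hK]; ring
    push_cast
    rw [hX]
    refine frac_step (Nat.cast_nonneg a) (by linarith) ?_ ?_
    · have h7 : c * ((N : ℝ) + 1) ≤ c * (K - θ) :=
        mul_le_mul_of_nonneg_left (by linarith) (by linarith)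
      nlinarith
    · exact block4 hc0 hc1 h3 h1 (by linarith) h6 h5
  · intro T θ h1 h2
    have h3 : (2 : ℝ) * m * (k + 1) ≤ m * T + 2 * (k + 1) := by exact_mod_cast h1
    have h4 : (θ : ℝ) ≤ k := by exact_mod_cast h2
    have h5 : 2 * c * K ≤ T := by
      have h6 : (m : ℝ) * (2 * c * K) ≤ m * T := by
        calc (m : ℝ) * (2 * c * K) = 2 * (m * c) * K := by ring
          _ = 2 * (m - 1) * (k + 1) := by rw [hmc, hK]
          _ ≤ m * T := by linarith
      exact le_of_mul_le_mul_left h6 (by linarith)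
    have h6 : 0 < 2 * c * K - θ := by linarith
    have h7 : (0 : ℝ) ≤ θ / (2 * c * K - θ) := div_nonneg (Nat.cast_nonneg θ) h6.le
    calc (θ : ℝ) = θ / (2 * c * K - θ) * (2 * c * K - θ) := by field_simp
      _ ≤ θ / (2 * c * K - θ) * (T - θ) := mul_le_mul_of_nonneg_left (by linarith) h7

/-- The potential for three machines. -/
theorem pot3 (k : ℕ) : ∃ h : ℕ → ℝ, h 0 = 0 ∧
    (∀ i j : ℕ, i ≤ j → j ≤ k → h i ≤ h j) ∧
    (∀ θ a N : ℕ, 1 ≤ a → 1 ≤ N → N + θ ≤ k → 3 * a + (N + 1) ≤ 3 * (N + 1) →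
      h (θ + a) ≤ h θ + N / ((k : ℝ) - θ)) ∧
    ∀ T θ : ℕ, 2 * 3 * (k + 1) ≤ 3 * T + 2 * (k + 1) → θ ≤ k → (θ : ℝ) ≤ h θ * (T - θ) := by
  obtain ⟨K, hK⟩ : ∃ K : ℝ, K = k + 1 := ⟨_, rfl⟩
  have hK1 : 1 ≤ K := by
    have : (0 : ℝ) ≤ k := Nat.cast_nonneg k
    linarith
  refine ⟨fun θ => max (2 * (θ / (2 * K - θ))) (θ / (4 * K / 3 - θ)), by simp, ?_, ?_, ?_⟩
  · intro i j hij hj
    have h1 : (i : ℝ) ≤ j := by exact_mod_cast hij
    have h2 : (j : ℝ) ≤ k := by exact_mod_cast hj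
    refine max_le_max ?_ ?_
    · exact mul_le_mul_of_nonneg_left (div_le_div₀ (Nat.cast_nonneg j) h1 (by linarith)
        (by linarith)) (by norm_num)
    · exact div_le_div₀ (Nat.cast_nonneg j) h1 (by linarith) (by linarith)
  · intro θ a N ha hN hNk hb
    have h1 : (1 : ℝ) ≤ N := by exact_mod_cast hN
    have h2 : (N : ℝ) + θ ≤ k := by exact_mod_cast hNk
    have h3 : (0 : ℝ) ≤ θ := Nat.cast_nonneg θ
    have hb' : 3 * a ≤ 2 * (N + 1) := by omega
    have h4 : (3 : ℝ) * a ≤ 2 * (N + 1) := by exact_mod_cast hb'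
    have hX : (k : ℝ) - θ = K - 1 - θ := by rw [hK]; ring
    have hX1 : (N : ℝ) ≤ K - 1 - θ := by linarith
    push_cast
    rw [hX]
    refine max_le ?_ ?_
    · have h5 := block3a h3 hN rfl hX1 hb'
      have h6 : ((θ : ℝ) + a) / (2 * K - (θ + a)) ≤ θ / (2 * K - θ) + (N / 2) / (K - 1 - θ) := by
        refine frac_step (Nat.cast_nonneg a) (by linarith) (by linarith) ?_
        nlinarith
      have h7 : 2 * (((θ : ℝ) + a) / (2 * K - (θ + a))) ≤
          2 * (θ / (2 * K - θ)) + N / (K - 1 - θ) := by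
        have h8 : (N : ℝ) / (K - 1 - θ) = 2 * ((N / 2) / (K - 1 - θ)) := by ring
        rw [h8]
        linarith
      exact h7.trans (add_le_add (le_max_left _ _) le_rfl)
    · by_cases hZ : 3 * (K - θ) ≤ K
      · have h5 := block3b h3 hN rfl hX1 hb' hZ
        have h6 : ((θ : ℝ) + a) / (4 * K / 3 - (θ + a)) ≤
            θ / (4 * K / 3 - θ) + N / (K - 1 - θ) :=
          frac_step (Nat.cast_nonneg a) (by linarith) (by linarith) h5
        exact h6.trans (add_le_add (le_max_right _ _) le_rfl)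
      · push Not at hZ
        exact (block3c h3 hN rfl hX1 hb' ha hZ.le).trans (add_le_add (le_max_left _ _) le_rfl)
  · intro T θ h1 h2
    have h3 : (2 : ℝ) * 3 * (k + 1) ≤ 3 * T + 2 * (k + 1) := by exact_mod_cast h1
    have h4 : (θ : ℝ) ≤ k := by exact_mod_cast h2
    have h5 : 4 * K / 3 ≤ T := by linarith
    have h6 : 0 < 4 * K / 3 - θ := by linarith
    have h7 : (0 : ℝ) ≤ θ / (4 * K / 3 - θ) := div_nonneg (Nat.cast_nonneg θ) h6.le
    calc (θ : ℝ) = θ / (4 * K / 3 - θ) * (4 * K / 3 - θ) := (div_mul_cancel₀ _ h6.ne').symm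
      _ ≤ θ / (4 * K / 3 - θ) * (T - θ) := mul_le_mul_of_nonneg_left (by linarith) h7
      _ ≤ max (2 * (θ / (2 * K - θ))) (θ / (4 * K / 3 - θ)) * (T - θ) :=
        mul_le_mul_of_nonneg_right (le_max_right _ _) (by linarith)

/-- The potential for all `m ≥ 3`. -/
theorem pot (m k : ℕ) (hm : 3 ≤ m) : ∃ h : ℕ → ℝ, h 0 = 0 ∧
    (∀ i j : ℕ, i ≤ j → j ≤ k → h i ≤ h j) ∧
    (∀ θ a N : ℕ, 1 ≤ a → 1 ≤ N → N + θ ≤ k → m * a + (N + 1) ≤ m * (N + 1) →
      h (θ + a) ≤ h θ + N / ((k : ℝ) - θ)) ∧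
    ∀ T θ : ℕ, 2 * m * (k + 1) ≤ m * T + 2 * (k + 1) → θ ≤ k → (θ : ℝ) ≤ h θ * (T - θ) := by
  rcases Nat.lt_or_ge m 4 with h | h
  · obtain rfl : m = 3 := by omega
    exact pot3 k
  · exact pot4 m k h

end Pool.Agent.Helper40.HS
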