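import Mathlib

/-!
# Ordered Hajnal-Szemeredi: list scheduling with a potential

`π : P → ℕ` is a priority function on a finite poset with
`(m - 1) * #{u | z < u, θ ≤ π u} ≤ m * (π z - θ)` for all `θ ≤ π z`. If `#{y | π x ≤ π y} ≤ m * (T - π x)` for all
`x`, then list scheduling on `m` machines by decreasing `π` starts every job `x` before the time `T - π x`.
-/

set_option autoImplicit false

namespace Pool.Agent.Helper40.HS

open Finset

open Classical in
/-- List scheduling, one job at a time by decreasing priority: every job gets the first free slot after its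
predecessors. -/
theorem exists_list {P : Type} [Fintype P] [PartialOrder P] (m : ℕ) (hm : 0 < m) (π : P → ℕ)
    (hπ : ∀ x y, x < y → π y < π x) (D : Finset P) :
    ∃ S : P → ℕ, (∀ x ∈ D, ∀ y ∈ D, x < y → S x < S y) ∧
      (∀ t, (D.filter fun x => S x = t).card ≤ m) ∧
      ∀ y ∈ D, ∀ i < S y, (∀ w ∈ D, w < y → S w < i) →
        m ≤ (D.filter fun x => S x = i ∧ π y ≤ π x).card := by
  induction D using Finset.induction_on_min_value π with
  | empty => exact ⟨fun _ => 0, by simp, by simp, by simp⟩
  | insert a D ha hmin ih =>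
    obtain ⟨S, h1, h2, h3⟩ := ih
    have hex : ∃ i, (∀ w ∈ D, w < a → S w < i) ∧ (D.filter fun x => S x = i).card < m := by
      refine ⟨D.sup S + 1, fun w hw _ => Nat.lt_succ_of_le (Finset.le_sup hw), ?_⟩
      have : (D.filter fun x => S x = D.sup S + 1) = ∅ := by
        refine Finset.filter_eq_empty_iff.2 fun x hx h => ?_
        have := Finset.le_sup (f := S) hx
        omega
      rw [this]
      simpa using hm
    obtain ⟨i0, hi0⟩ : ∃ i, i = Nat.find hex := ⟨_, rfl⟩
    have hi1 : (∀ w ∈ D, w < a → S w < i0) ∧ (D.filter fun x => S x = i0).card < m := by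
      rw [hi0]; exact Nat.find_spec hex
    have hi2 : ∀ i < i0, ¬ ((∀ w ∈ D, w < a → S w < i) ∧ (D.filter fun x => S x = i).card < m) := by
      intro i hi
      rw [hi0] at hi
      exact Nat.find_min hex hi
    have hne : ∀ x ∈ D, x ≠ a := fun x hx h => ha (h ▸ hx)
    obtain ⟨S', hS'⟩ : ∃ S' : P → ℕ, S' = Function.update S a i0 := ⟨_, rfl⟩
    have ea : S' a = i0 := by rw [hS']; simp
    have eD : ∀ x ∈ D, S' x = S x := fun x hx => by
      rw [hS']; exact Function.update_of_ne (hne x hx) _ _
    refine ⟨S', ?_, ?_, ?_⟩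
    · intro x hx y hy hxy
      rcases Finset.mem_insert.1 hx with rfl | hx'
      · rcases Finset.mem_insert.1 hy with rfl | hy'
        · exact absurd hxy (lt_irrefl _)
        · have := hmin y hy'
          have := hπ _ _ hxy
          omega
      · rcases Finset.mem_insert.1 hy with rfl | hy'
        · rw [ea, eD x hx']
          exact hi1.1 x hx' hxy
        · rw [eD x hx', eD y hy']
          exact h1 x hx' y hy' hxy
    · intro t
      have e1 : (insert a D).filter (fun x => S' x = t) ⊆
          (if i0 = t then {a} else ∅) ∪ D.filter (fun x => S x = t) := by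
        intro x hx
        rw [Finset.mem_filter] at hx
        rcases Finset.mem_insert.1 hx.1 with rfl | hx'
        · have h4 : i0 = t := by rw [← ea]; exact hx.2
          rw [if_pos h4]
          exact Finset.mem_union_left _ (Finset.mem_singleton_self _)
        · refine Finset.mem_union_right _ (Finset.mem_filter.2 ⟨hx', ?_⟩)
          rw [← eD x hx']
          exact hx.2
      refine (Finset.card_le_card e1).trans ((Finset.card_union_le _ _).trans ?_)
      by_cases h4 : i0 = t
      · rw [if_pos h4, Finset.card_singleton, ← h4]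
        have := hi1.2
        omega
      · rw [if_neg h4, Finset.card_empty, zero_add]
        exact h2 t
    · intro y hy i hi hw
      rcases Finset.mem_insert.1 hy with rfl | hy'
      · rw [ea] at hi
        have h4 := hi2 i hi
        have h5 : ∀ w ∈ D, w < y → S w < i := by
          intro w hwD hwy
          rw [← eD w hwD]
          exact hw w (Finset.mem_insert_of_mem hwD) hwy
        have h6 : m ≤ (D.filter fun x => S x = i).card := by
          by_contra h7
          exact h4 ⟨h5, by omega⟩
        refine h6.trans (Finset.card_le_card fun x hx => ?_)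
        rw [Finset.mem_filter] at hx ⊢
        refine ⟨Finset.mem_insert_of_mem hx.1, ?_, hmin x hx.1⟩
        rw [eD x hx.1]
        exact hx.2
      · rw [eD y hy'] at hi
        have h4 := h3 y hy' i hi fun w hwD hwy => by
          rw [← eD w hwD]
          exact hw w (Finset.mem_insert_of_mem hwD) hwy
        refine h4.trans (Finset.card_le_card fun x hx => ?_)
        rw [Finset.mem_filter] at hx ⊢
        refine ⟨Finset.mem_insert_of_mem hx.1, ?_, hx.2.2⟩
        rw [eD x hx.1]
        exact hx.2.1

open Classical in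
/-- List scheduling by a potential meets the deadlines `T - π x`. -/
theorem sched {P : Type} [Fintype P] [PartialOrder P] (m T : ℕ) (hm : 2 ≤ m) (π : P → ℕ)
    (h2 : ∀ z θ, θ ≤ π z →
      (m - 1) * (univ.filter fun u => z < u ∧ θ ≤ π u).card + m * θ ≤ m * π z)
    (hK : ∀ x, (univ.filter fun y => π x ≤ π y).card + m * π x ≤ m * T) :
    ∃ S : P → ℕ, (∀ x, S x + π x < T) ∧ (∀ x y, x < y → S x < S y) ∧
      ∀ t, (univ.filter fun x => S x = t).card ≤ m := by
  have hπ : ∀ x y, x < y → π y < π x := by
    intro x y hxy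
    by_contra h
    push Not at h
    have h3 := h2 x (π x) le_rfl
    have h4 : 0 < (univ.filter fun u => x < u ∧ π x ≤ π u).card :=
      Finset.card_pos.2 ⟨y, Finset.mem_filter.2 ⟨Finset.mem_univ _, hxy, h⟩⟩
    have h5 : 0 < (m - 1) * (univ.filter fun u => x < u ∧ π x ≤ π u).card :=
      Nat.mul_pos (by omega) h4
    omega
  obtain ⟨S, s1, s2, s3⟩ := exists_list m (by omega) π hπ univ
  have s1' : ∀ x y, x < y → S x < S y := fun x y h => s1 x (mem_univ _) y (mem_univ _) h
  refine ⟨S, ?_, s1', s2⟩
  -- the greedy property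
  have hg : ∀ (θ i : ℕ) (y : P), θ ≤ π y → i < S y →
      (univ.filter fun x => S x = i ∧ θ ≤ π x).card < m → ∃ w, w < y ∧ S w = i ∧ θ ≤ π w := by
    intro θ i y hθ hi hbad
    obtain ⟨u, hu, humin⟩ := (univ.filter fun u => u ≤ y ∧ i ≤ S u).exists_minimal
      ⟨y, Finset.mem_filter.2 ⟨mem_univ _, le_rfl, hi.le⟩⟩
    rw [Finset.mem_filter] at hu
    obtain ⟨-, huy, hiu⟩ := hu
    have hπu : π y ≤ π u := by
      rcases huy.lt_or_eq with h | h
      · exact (hπ u y h).le
      · rw [h]
    rcases hiu.lt_or_eq with h | h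
    · exfalso
      have h5 := s3 u (mem_univ _) i h fun w _ hwu => by
        by_contra h6
        push Not at h6
        have h7 := humin (Finset.mem_filter.2 ⟨mem_univ w, hwu.le.trans huy, h6⟩) hwu.le
        exact absurd hwu (not_lt_of_ge h7)
      have h6 : (univ.filter fun x => S x = i ∧ π u ≤ π x).card ≤
          (univ.filter fun x => S x = i ∧ θ ≤ π x).card :=
        Finset.card_le_card fun x hx => by
          rw [Finset.mem_filter] at hx ⊢
          exact ⟨hx.1, hx.2.1, by omega⟩
      omega
    · refine ⟨u, lt_of_le_of_ne huy ?_, h.symm, by omega⟩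
      rintro rfl
      omega
  by_contra hcon
  push Not at hcon
  obtain ⟨x0, hx0⟩ := hcon
  obtain ⟨x, hx, hxmax⟩ := (univ.filter fun x => T ≤ S x + π x).exists_max_image π
    ⟨x0, Finset.mem_filter.2 ⟨mem_univ _, hx0⟩⟩
  have hxT := (Finset.mem_filter.1 hx).2
  obtain ⟨θ, hθ⟩ : ∃ θ, θ = π x := ⟨_, rfl⟩
  rw [← hθ] at hxT hxmax
  have hKx := hK x
  rw [← hθ] at hKx
  have hpos : 0 < (univ.filter fun y => θ ≤ π y).card :=
    Finset.card_pos.2 ⟨x, Finset.mem_filter.2 ⟨mem_univ _, by rw [hθ]⟩⟩
  have hθT : θ < T := by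
    by_contra h
    push Not at h
    have := Nat.mul_le_mul_left m h
    omega
  obtain ⟨D, hD⟩ : ∃ D, T = D + θ := ⟨T - θ, by omega⟩
  -- count of a set of full slots
  have hfull : ∀ i0 : ℕ, (∀ i, i0 ≤ i → i < D → m ≤ (univ.filter fun x => S x = i ∧ θ ≤ π x).card) →
      i0 ≤ D → m * (D - i0) + 1 ≤ (univ.filter fun y => θ ≤ π y ∧ i0 ≤ S y).card := by
    intro i0 hi0 hle
    have e1 : (univ.filter fun y => θ ≤ π y ∧ i0 ≤ S y ∧ S y < D).card =
        ∑ i ∈ Finset.Ico i0 D, ((univ.filter fun y => θ ≤ π y ∧ i0 ≤ S y ∧ S y < D).filter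
          fun y => S y = i).card := by
      refine Finset.card_eq_sum_card_fiberwise fun y hy => ?_
      have hy' := (Finset.mem_filter.1 hy).2
      exact Finset.mem_coe.2 (Finset.mem_Ico.2 ⟨hy'.2.1, hy'.2.2⟩)
    have e2 : m * (D - i0) ≤ (univ.filter fun y => θ ≤ π y ∧ i0 ≤ S y ∧ S y < D).card := by
      rw [e1]
      calc m * (D - i0) = ∑ _i ∈ Finset.Ico i0 D, m := by
            rw [Finset.sum_const, Nat.card_Ico, smul_eq_mul, mul_comm]
        _ ≤ _ := by
            refine Finset.sum_le_sum fun i hi => ?_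
            rw [Finset.mem_Ico] at hi
            refine (hi0 i hi.1 hi.2).trans (Finset.card_le_card fun y hy => ?_)
            rw [Finset.mem_filter] at hy
            rw [Finset.mem_filter, Finset.mem_filter]
            exact ⟨⟨mem_univ _, hy.2.2, by omega, by omega⟩, hy.2.1⟩
    have e3 : (univ.filter fun y => θ ≤ π y ∧ i0 ≤ S y ∧ S y < D) ⊂
        (univ.filter fun y => θ ≤ π y ∧ i0 ≤ S y) := by
      rw [Finset.ssubset_iff_of_subset]
      · refine ⟨x, Finset.mem_filter.2 ⟨mem_univ _, by omega, by omega⟩, fun h => ?_⟩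
        have := (Finset.mem_filter.1 h).2.2.2
        omega
      · intro y hy
        rw [Finset.mem_filter] at hy ⊢
        exact ⟨hy.1, hy.2.1, hy.2.2.1⟩
    have := Finset.card_lt_card e3
    omega
  by_cases hall : ∀ i, i < D → m ≤ (univ.filter fun x => S x = i ∧ θ ≤ π x).card
  · have h5 := hfull 0 (fun i _ hi => hall i hi) (Nat.zero_le _)
    have h6 : (univ.filter fun y => θ ≤ π y ∧ 0 ≤ S y).card ≤
        (univ.filter fun y => θ ≤ π y).card := Finset.card_le_card fun y hy => by
      rw [Finset.mem_filter] at hy ⊢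
      exact ⟨hy.1, hy.2.1⟩
    have h7 : m * T = m * D + m * θ := by rw [hD]; ring
    have h8 : m * (D - 0) = m * D := by simp
    omega
  · push Not at hall
    obtain ⟨j0, hj0, hj0'⟩ := hall
    obtain ⟨i, hi, himax⟩ := ((range D).filter fun i =>
      (univ.filter fun x => S x = i ∧ θ ≤ π x).card < m).exists_max_image id
      ⟨j0, Finset.mem_filter.2 ⟨Finset.mem_range.2 hj0, hj0'⟩⟩
    rw [Finset.mem_filter, Finset.mem_range] at hi
    obtain ⟨hiD, hibad⟩ := hi
    have h5 := hfull (i + 1) (fun j hj1 hj2 => by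
      by_contra h
      push Not at h
      have := himax j (Finset.mem_filter.2 ⟨Finset.mem_range.2 hj2, h⟩)
      simp only [id] at this
      omega) hiD
    -- the successors of the jobs of high priority in slot `i`
    have h6 : (univ.filter fun y => θ ≤ π y ∧ i + 1 ≤ S y).card ≤
        ∑ w ∈ univ.filter (fun x => S x = i ∧ θ ≤ π x),
          (univ.filter fun u => w < u ∧ θ ≤ π u).card := by
      refine le_trans (Finset.card_le_card ?_) Finset.card_biUnion_le
      intro y hy
      rw [Finset.mem_filter] at hy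
      obtain ⟨w, hw1, hw2, hw3⟩ := hg θ i y hy.2.1 (by omega) hibad
      exact Finset.mem_biUnion.2 ⟨w, Finset.mem_filter.2 ⟨mem_univ _, hw2, hw3⟩,
        Finset.mem_filter.2 ⟨mem_univ _, hw1, hy.2.1⟩⟩
    have h7 : ∀ w ∈ univ.filter (fun x => S x = i ∧ θ ≤ π x),
        (m - 1) * (univ.filter fun u => w < u ∧ θ ≤ π u).card ≤ m * (D - (i + 1)) := by
      intro w hw
      rw [Finset.mem_filter] at hw
      obtain ⟨-, hw1, hw2⟩ := hw
      have h8 := h2 w θ hw2
      rcases hw2.lt_or_eq with h | h
      · have h9 : S w + π w < T := by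
          by_contra h10
          push Not at h10
          have := hxmax w (Finset.mem_filter.2 ⟨mem_univ _, h10⟩)
          omega
        have h11 : π w ≤ (D - (i + 1)) + θ := by omega
        have h12 := Nat.mul_le_mul_left m h11
        rw [Nat.mul_add] at h12
        omega
      · rw [← h] at h8
        omega
    have h8 : (m - 1) * (univ.filter fun y => θ ≤ π y ∧ i + 1 ≤ S y).card ≤
        (m - 1) * (m * (D - (i + 1))) := by
      calc (m - 1) * (univ.filter fun y => θ ≤ π y ∧ i + 1 ≤ S y).card
          ≤ (m - 1) * ∑ w ∈ univ.filter (fun x => S x = i ∧ θ ≤ π x),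
            (univ.filter fun u => w < u ∧ θ ≤ π u).card := Nat.mul_le_mul_left _ h6
        _ = ∑ w ∈ univ.filter (fun x => S x = i ∧ θ ≤ π x),
            (m - 1) * (univ.filter fun u => w < u ∧ θ ≤ π u).card := Finset.mul_sum _ _ _
        _ ≤ ∑ _w ∈ univ.filter (fun x => S x = i ∧ θ ≤ π x), m * (D - (i + 1)) :=
            Finset.sum_le_sum h7
        _ = (univ.filter (fun x => S x = i ∧ θ ≤ π x)).card * (m * (D - (i + 1))) := by
            rw [Finset.sum_const, smul_eq_mul]
        _ ≤ (m - 1) * (m * (D - (i + 1))) := Nat.mul_le_mul_right _ (by omega)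
    have h9 := Nat.le_of_mul_le_mul_left h8 (by omega)
    omega

end Pool.Agent.Helper40.HS
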