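import Pool.Agent.Helper40.HS.Count
import Pool.Agent.Helper40.HS.Sched

/-!
# Ordered Hajnal-Szemeredi: the main theorem

Let `P` be a finite poset in which every element is comparable with at most `k` others, `m ≥ 3`, and let
`T` satisfy `|P| ≤ m T` and `2 (m - 1) (k + 1) ≤ m T`. Then `P` has a strictly increasing map to
`{0, ..., T - 1}` with all fibres of size at most `m`.
-/

set_option autoImplicit false

namespace Pool.Agent.Helper40.HS

open Finset

section

variable {P : Type} [Fintype P] [PartialOrder P]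

open Classical in
/-- Predecessors. -/
noncomputable def dn (z : P) : Finset P := univ.filter fun u => u < z

theorem mem_dn {z u : P} : u ∈ dn z ↔ u < z := by simp [dn]

open Classical in
/-- The level sets of the potential are small. -/
theorem level (m k T : ℕ) (h : ℕ → ℝ) (h0 : h 0 = 0)
    (hmono : ∀ i j : ℕ, i ≤ j → j ≤ k → h i ≤ h j)
    (hfin : ∀ θ : ℕ, θ ≤ k → (θ : ℝ) ≤ h θ * (T - θ))
    (hn : Fintype.card P ≤ m * T) (π : P → ℕ)
    (hdeg : ∀ x : P, (up x).card + (dn x).card ≤ k)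
    (hHH : ∀ z : P, π z ≤ (up z).card ∧ h (π z) ≤ HH k z) (x : P) :
    (univ.filter fun y : P => π x ≤ π y).card + m * π x ≤ m * T := by
  obtain ⟨θ, hθ⟩ : ∃ θ, θ = π x := ⟨_, rfl⟩
  rw [← hθ]
  have hθk : θ ≤ k := by
    have h1 := (hHH x).1
    have h2 := hdeg x
    omega
  obtain ⟨U, hU⟩ : ∃ U, U = univ.filter fun y : P => θ ≤ π y := ⟨_, rfl⟩
  obtain ⟨G, hG⟩ : ∃ G, G = univ.filter fun y : P => ¬ θ ≤ π y := ⟨_, rfl⟩
  rw [← hU]
  have hUG : U.card + G.card = Fintype.card P := by
    rw [hU, hG, Finset.card_filter_add_card_filter_not, Finset.card_univ]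
  have hdeg1 : ∀ y : P, ((dn y).card : ℝ) ≤ (k : ℝ) - (up y).card := by
    intro y
    have h1 : ((up y).card : ℝ) + (dn y).card ≤ k := by exact_mod_cast hdeg y
    linarith
  have hwt : ∀ x y : P, x < y → 0 < (k : ℝ) - (up y).card := by
    intro x y hxy
    have h1 : 0 < (dn y).card := Finset.card_pos.2 ⟨x, mem_dn.2 hxy⟩
    have h2 : (0 : ℝ) < (dn y).card := by exact_mod_cast h1
    linarith [hdeg1 y]
  have hz : ∀ z ∈ U, h θ ≤ ∑ y ∈ G, if z < y then 1 / ((k : ℝ) - (up y).card) else 0 := by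
    intro z hz
    rw [hU, mem_filter] at hz
    obtain ⟨w, hw, hmax⟩ := (univ.filter fun u : P => z ≤ u ∧ θ ≤ π u).exists_maximal
      ⟨z, by simp [hz.2]⟩
    have hw' : z ≤ w ∧ θ ≤ π w := (mem_filter.1 hw).2
    have h1 : h θ ≤ h (π w) := hmono _ _ hw'.2 (by
      have h1 := (hHH w).1
      have h2 := hdeg w
      omega)
    refine h1.trans ((hHH w).2.trans ?_)
    rw [← Finset.sum_filter]
    refine Finset.sum_le_sum_of_subset_of_nonneg ?_ ?_
    · intro v hv
      have hv' := mem_up.1 hv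
      refine mem_filter.2 ⟨?_, lt_of_le_of_lt hw'.1 hv'⟩
      rw [hG, mem_filter]
      refine ⟨mem_univ _, fun hθv => ?_⟩
      have h3 : v ∈ univ.filter fun u : P => z ≤ u ∧ θ ≤ π u :=
        mem_filter.2 ⟨mem_univ _, hw'.1.trans hv'.le, hθv⟩
      exact absurd hv' (not_lt_of_ge (hmax h3 hv'.le))
    · intro y hy _
      exact (one_div_pos.2 (hwt z y (mem_filter.1 hy).2)).le
  have hsum : (U.card : ℝ) * h θ ≤ G.card := by
    have h1 : (U.card : ℝ) * h θ ≤
        ∑ z ∈ U, ∑ y ∈ G, if z < y then 1 / ((k : ℝ) - (up y).card) else 0 := by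
      rw [← nsmul_eq_mul, ← Finset.sum_const]
      exact Finset.sum_le_sum hz
    rw [Finset.sum_comm] at h1
    refine h1.trans ?_
    have h2 : ∀ y ∈ G, (∑ z ∈ U, if z < y then 1 / ((k : ℝ) - (up y).card) else 0) ≤ 1 := by
      intro y _
      rw [← Finset.sum_filter, Finset.sum_const, nsmul_eq_mul]
      have h3 : (U.filter fun z => z < y).card ≤ (dn y).card :=
        Finset.card_le_card fun z hz => mem_dn.2 (mem_filter.1 hz).2
      have h4 : ((U.filter fun z => z < y).card : ℝ) ≤ (dn y).card := by exact_mod_cast h3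
      rcases Nat.eq_zero_or_pos (dn y).card with h5 | h5
      · have h6 : (U.filter fun z => z < y).card = 0 := by omega
        rw [h6]
        simp
      · have h6 : (0 : ℝ) < (dn y).card := by exact_mod_cast h5
        have h7 := hdeg1 y
        rw [mul_one_div, div_le_one (by linarith)]
        linarith
    calc _ ≤ ∑ _y ∈ G, (1 : ℝ) := Finset.sum_le_sum h2
      _ = G.card := by simp
  have hn' : (U.card : ℝ) + G.card ≤ m * T := by exact_mod_cast hUG.trans_le hn
  have hf := hfin θ hθk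
  have hpos : 0 ≤ h θ := by
    rw [← h0]
    exact hmono 0 θ (Nat.zero_le _) hθk
  have hgoal : (U.card : ℝ) + m * θ ≤ m * T := by
    by_contra hcon
    push Not at hcon
    have h1 : (m : ℝ) * (T - θ) < U.card := by linarith
    have h2 : (m : ℝ) * (T - θ) * (1 + h θ) < U.card * (1 + h θ) :=
      mul_lt_mul_of_pos_right h1 (by linarith)
    have h3 : (m : ℝ) * θ ≤ m * (h θ * (T - θ)) := mul_le_mul_of_nonneg_left hf (Nat.cast_nonneg _)
    nlinarith
  exact_mod_cast hgoal

open Classical in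
/-- **Ordered Hajnal-Szemeredi theorem.** -/
theorem main (m k T : ℕ) (hm : 3 ≤ m) (hk : ∀ x : P, (univ.filter fun y => x < y ∨ y < x).card ≤ k)
    (hn : Fintype.card P ≤ m * T) (hT : 2 * (m - 1) * (k + 1) ≤ m * T) :
    ∃ S : P → ℕ, (∀ x, S x < T) ∧ (∀ x y, x < y → S x < S y) ∧
      ∀ t, (univ.filter fun x => S x = t).card ≤ m := by
  have hT' : 2 * m * (k + 1) ≤ m * T + 2 * (k + 1) := by
    obtain ⟨b, rfl⟩ : ∃ b, m = b + 1 := ⟨m - 1, by omega⟩
    have e : 2 * (b + 1) * (k + 1) = 2 * (b + 1 - 1) * (k + 1) + 2 * (k + 1) := by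
      simp only [Nat.add_sub_cancel]
      ring
    omega
  have hdeg : ∀ x : P, (up x).card + (dn x).card ≤ k := by
    intro x
    have hd : Disjoint (up x) (dn x) := by
      rw [Finset.disjoint_left]
      intro y hy hy'
      exact lt_asymm (mem_up.1 hy) (mem_dn.1 hy')
    rw [← Finset.card_union_of_disjoint hd]
    refine (Finset.card_le_card ?_).trans (hk x)
    intro y hy
    refine mem_filter.2 ⟨mem_univ _, ?_⟩
    rcases Finset.mem_union.1 hy with h | h
    · exact Or.inl (mem_up.1 h)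
    · exact Or.inr (mem_dn.1 h)
  obtain ⟨h, h0, hmono, hstep, hfin⟩ := pot m k hm
  obtain ⟨π, hval, htight⟩ := exists_min P m (by omega)
  have hHH : ∀ z : P, π z ≤ (up z).card ∧ h (π z) ≤ HH k z :=
    HH_ge m k (by omega) h h0 hmono hstep π (fun x => by have := hdeg x; omega)
      (fun x y hxy => by
        have h1 : 0 < (dn y).card := Finset.card_pos.2 ⟨x, mem_dn.2 hxy⟩
        have h2 := hdeg y
        omega) htight
  obtain ⟨S, hS1, hS2, hS3⟩ := sched m T (by omega) π hval
    (fun x => level m k T h h0 hmono (fun θ hθ => hfin T θ hT' hθ) hn π hdeg hHH x)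
  refine ⟨S, fun x => ?_, hS2, hS3⟩
  have h1 := hS1 x
  omega

end

end Pool.Agent.Helper40.HS
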